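import Pool.Agent.H781.KP.AllK

/-!
MP_4a593f_gt, Q1, partial answer in every even dimension: closed manifolds of positive sectional
curvature whose curvature operator is not too negative have positive Euler characteristic.

`SecGE g κ` (all sectional curvatures are at least `κ`) is defined in
`Pool/Agent/H781/CM/FDefs2.lean`, `CurvOpGE n g c` (all eigenvalues of the curvature operator are at
least `c`) and `IsBetti (𝓡 n) M p b` (the `p`-th de Rham cohomology of `M` has dimension `b`) in
`Pool/Agent/H781/CM/FDefs.lean`.

Proof. Suppose that the curvature operator is at least `-ε`. The estimate of Lichnerowicz gives a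
Poincaré inequality. The eigenforms of the Hodge Laplacian with very small eigenvalues are almost
parallel and have small Weitzenböck terms; at a good point they span, in the limit `ε → 0`, a graded
subalgebra `A` of the Clifford algebra of `ℝⁿ`. By the Cauchy-Schwarz inequality of the curvature
operator and a variational argument on the orthogonal group the stabiliser of `A` acts transitively
on the unit sphere, hence also infinitesimally. For even `n` its Lie algebra contains an invertible
skew-symmetric matrix `X`, so `A` has a twisted-central element `X^m Γ` of nonzero trace, and the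
trace formula for the parity automorphism shows that the alternating sum of the dimensions of `A`,
which is the Euler characteristic, is positive.
-/

set_option autoImplicit false

open Bundle Manifold ContDiff

noncomputable section

namespace Pool.Agent.Results.MP_4a593f_gt.AlmostNonnegativeOperator

open Pool.Agent.H781.CM Pool.Agent.H781.CM.F Pool.Agent.H781.KP

/-- For every even dimension `2 m` and every `κ > 0` there is `ε > 0` such that every closed
connected Riemannian manifold of dimension `2 m` with sectional curvature at least `κ` and curvature
operator at least `-ε` has finite Betti numbers and positive Euler characteristic. -/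
theorem result (m : ℕ) (κ : ℝ) (hm : 1 ≤ m) (hκ : 0 < κ) : ∃ ε : ℝ, 0 < ε ∧
    ∀ (M : Type) [TopologicalSpace M] [T2Space M] [CompactSpace M] [ConnectedSpace M]
      [ChartedSpace (EuclideanSpace ℝ (Fin (2 * m))) M] [IsManifold (𝓡 (2 * m)) ∞ M]
      (g : ContMDiffRiemannianMetric (𝓡 (2 * m)) ∞ (EuclideanSpace ℝ (Fin (2 * m)))
        (fun x : M => TangentSpace (𝓡 (2 * m)) x)),
      SecGE g κ → CurvOpGE (2 * m) g (-ε) →
      ∃ b : ℕ → ℕ, (∀ p, IsBetti (𝓡 (2 * m)) M p (b p)) ∧
        0 < ∑ p ∈ Finset.range (2 * m + 1), (-1 : ℤ) ^ p * (b p : ℤ) :=
  maink m κ hm hκ

end Pool.Agent.Results.MP_4a593f_gt.AlmostNonnegativeOperator
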