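import Pool.Agent.H781.H6.AllH

/-!
MP_4a593f_gt, Q1, partial answer in dimension 6: closed 6-manifolds with positive Ricci curvature
and pointwise 4/31-pinched biorthogonal curvature, in particular those of positive sectional
curvature with `K_max < (31 / 4) K_min` at each point, have vanishing odd Betti numbers and
positive Euler characteristic.

`RicciPos`, `BiorthPinched`, `SecPinched` are defined in `Pool/Agent/H781/H6/D.lean`,
`IsBetti (𝓡 6) M p b` (the `p`-th de Rham cohomology of `M` has dimension `b`) in
`Pool/Agent/H781/CM/FDefs.lean`.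
-/

set_option autoImplicit false

open Bundle Manifold ContDiff

noncomputable section

namespace Pool.Agent.Results.MP_4a593f_gt.BiorthogonalPinching

open Pool.Agent.H781.CM Pool.Agent.H781.CM.F Pool.Agent.H781.H6

/-- Closed connected Riemannian 6-manifolds with positive Ricci curvature and pointwise
4/31-pinched biorthogonal curvature have vanishing odd Betti numbers and positive Euler
characteristic; so do those with pointwise 4/31-pinched positive sectional curvature. -/
theorem result (M : Type) [TopologicalSpace M] [T2Space M] [CompactSpace M]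
    [ConnectedSpace M] [ChartedSpace (EuclideanSpace ℝ (Fin 6)) M] [IsManifold (𝓡 6) ∞ M]
    (g : ContMDiffRiemannianMetric (𝓡 6) ∞ (EuclideanSpace ℝ (Fin 6))
      (fun x : M => TangentSpace (𝓡 6) x))
    (h : (RicciPos 6 g ∧ BiorthPinched g) ∨ SecPinched g) :
    ∃ b : ℕ → ℕ, (∀ p, IsBetti (𝓡 6) M p (b p)) ∧ b 1 = 0 ∧ b 3 = 0 ∧ b 5 = 0 ∧
      0 < ∑ p ∈ Finset.range 7, (-1 : ℤ) ^ p * (b p : ℤ) := by
  obtain ⟨h1, h2⟩ : RicciPos 6 g ∧ BiorthPinched g := by
    rcases h with h | h
    · exact h
    · exact s_pin6 M g h
  exact main6 M g h1 h2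

end Pool.Agent.Results.MP_4a593f_gt.BiorthogonalPinching
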