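import Pool.Agent.H349.RP.P

/-!
# Positivity of the Euler characteristic in every even dimension: a lower sectional and upper
(intermediate) Ricci curvature bounds, modulo squares of simple bivectors

Let `n = 2 m ≥ 4` and let `R` be the curvature tensor at a point of a Riemannian `n`-manifold.
Suppose that `R = U + ∑ (a k ∧ b k)²` with squares of simple bivectors of any size (they can only
increase the sectional curvatures), that all sectional curvatures of `U` are at least `c` and that
the Ricci curvatures of the restrictions of `U` to the subspaces of dimension `2 j - 1` are at most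
`(2 j - 2) c + r j`, `3 ≤ j ≤ m`. If `δ = dr m c r = c - (r 3 + ⋯ + r m) / (3 m)` is nonnegative,
then the Gauss–Bonnet–Chern integrand is at least its value for constant curvature `δ`. So a closed
Riemannian `n`-manifold with this property at each point, and `δ > 0` somewhere, has positive Euler
characteristic.

For all `r j` equal this is a condition on the Ricci curvature: `U ≥ c` and `Ric U ≤ ρ` with
`ρ ≤ (n + 2 + 12 / (n - 4)) c`; for constant curvature `c` one has `ρ = (n - 1) c`, for complex
projective space (`c ≤ K ≤ 4 c`) `ρ = (n + 2) c`. There is no bound from above for the sectional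
curvatures of `R`. The bounds may be taken with respect to any other inner product
`⟨L⁻¹ x, L⁻¹ y⟩`. The theorem also holds for all `U` whose sectional curvatures differ by at most
`ε < 6 / (2 m² + m - 4)` from those of complex projective space.

This is the mirror image (`R` replaced by `-R`) of `MP_5a30bb_gt.RicciAllDimensions`; the proof is
in `Pool/Agent/H349/RP/`.
-/

set_option autoImplicit false

namespace Pool.Agent.Results.MP_4a593f_gt.RicciUpperAllDimensions

open MeasureTheory Pool.Agent.W666.GB Pool.Agent.H349.RP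

/-- **Positivity of the Gauss–Bonnet–Chern integrand in every even dimension `2 m ≥ 4` for `K ≥ c`
and upper bounds of the intermediate Ricci curvatures, modulo squares of simple bivectors.** -/
theorem result :
    -- (1) the pointwise inequality; the bounds may refer to another inner product (`L`), and
    -- they are only needed after subtraction of squares of the simple bivectors `a k ∧ b k`
    (∀ (m N : ℕ) (V : Type) [NormedAddCommGroup V] [InnerProductSpace ℝ V]
      (e : OrthonormalBasis (Fin m × Bool) ℝ V) (R : V → V → V → V → ℝ) (L : V →ₗ[ℝ] V)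
      (a b : Fin N → V) (c : ℝ) (r : ℕ → ℝ), 2 ≤ m → AlgCurv R → 0 ≤ r 3 → Monotone r →
      SecGeP (modP R L a b) c → PRicLeP (modP R L a b) c r → 0 ≤ dr m c r →
        roundGB m (dr m c r) ≤ LinearMap.det L ^ 2 * gbc e R) ∧
    -- (2) the case of the Ricci curvature
    (∀ (m N : ℕ) (V : Type) [NormedAddCommGroup V] [InnerProductSpace ℝ V]
      (e : OrthonormalBasis (Fin m × Bool) ℝ V) (R : V → V → V → V → ℝ) (L : V →ₗ[ℝ] V)
      (a b : Fin N → V) (c ρ : ℝ), 2 ≤ m → AlgCurv R →
      SecGeP (modP R L a b) c → RicLeP e (modP R L a b) ρ →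
      0 ≤ c - (m - 2) * (ρ - (2 * m - 1) * c) / (3 * m) →
        roundGB m (c - (m - 2) * (ρ - (2 * m - 1) * c) / (3 * m)) ≤
          LinearMap.det L ^ 2 * gbc e R) ∧
    -- (3) tensors near the one of complex projective space
    (∀ (m : ℕ) (V : Type) [NormedAddCommGroup V] [InnerProductSpace ℝ V]
      (e : OrthonormalBasis (Fin m × Bool) ℝ V) (J : V →ₗ[ℝ] V), 2 ≤ m → IsCS J →
      AlgCurv (cpT J) ∧ ∀ (N : ℕ) (R : V → V → V → V → ℝ) (L : V →ₗ[ℝ] V) (a b : Fin N → V)
      (ε : ℝ), 0 ≤ ε → AlgCurv R →
      (∀ x y : V, ‖x‖ = 1 → ‖y‖ = 1 → inner ℝ x y = 0 →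
        |modP R L a b x y x y - cpT J x y x y| ≤ ε) →
      (2 * m ^ 2 + m - 4) * ε < 6 →
        0 < roundGB m ((6 - (2 * m ^ 2 + m - 4) * ε) / (3 * m)) ∧
        roundGB m ((6 - (2 * m ^ 2 + m - 4) * ε) / (3 * m)) ≤ LinearMap.det L ^ 2 * gbc e R) ∧
    -- (4) the integrated forms
    (∀ (m : ℕ) (M : Type) [MeasurableSpace M] (μ : Measure M) (K : CurvField m M)
      (c : M → ℝ) (r : M → ℕ → ℝ), 2 ≤ m →
      (∀ p, 0 ≤ r p 3 ∧ Monotone (r p) ∧ 0 ≤ dr m (c p) (r p) ∧
        ∃ (N : ℕ) (a b : Fin N → K.V p), SecGeP (modP (K.R p) LinearMap.id a b) (c p) ∧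
          PRicLeP (modP (K.R p) LinearMap.id a b) (c p) (r p)) →
        0 ≤ ∫ p, K.gb p ∂μ ∧
        (Integrable K.gb μ → Integrable (fun p => roundGB m (dr m (c p) (r p))) μ →
          ∫ p, roundGB m (dr m (c p) (r p)) ∂μ ≤ ∫ p, K.gb p ∂μ) ∧
        (Integrable K.gb μ → μ {p | 0 < dr m (c p) (r p)} ≠ 0 → 0 < ∫ p, K.gb p ∂μ)) := by
  refine ⟨fun m N V _ _ e R L a b c r hm hR h0 h1 h2 h3 h4 => pointP hm e hR L a b h0 h1 h2 h3 h4,
    fun m N V _ _ e R L a b c ρ hm hR h1 h2 h3 => point_ricP hm e hR L a b h1 h2 h3,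
    fun m V _ _ e J hm hJ => ⟨cpT_curv hJ, fun N R L a b ε hε0 hR hε hlt =>
      point_nearP hm e hR L a b hJ hε0 hε hlt⟩,
    fun m M _ μ K c r hm h => fieldP hm μ K c r h⟩

end Pool.Agent.Results.MP_4a593f_gt.RicciUpperAllDimensions
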